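import Pool.Agent.K1H75.Gauge.Haus

/-!
# Subsets of finite positive Hausdorff measure: which gauges allow them

For a gauge function `f` the statement `(∗)_f`, that every set of reals of positive `H^f`-measure has a
subset of finite positive `H^f`-measure, is decided in ZFC: it holds if and only if `f(t)/t` does
not tend to infinity as `t → 0`. In particular `(∗)`, which is `(∗)_f` for all gauges `f`, fails in
ZFC (for instance for `f(t) = √t`).

The set witnessing the failure is null for every finite nonatomic Borel measure (it comes from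
Grzegorek's construction of such sets), but its coding into the line is so economical that the
least Lebesgue nonnull sets are images of it under a map that is controlled by `f`.
-/

set_option autoImplicit false

open Set
open scoped ENNReal NNReal

namespace Pool.Agent.Results.MP_b87f19_lc.EveryLargeGauge

/-- A gauge function: a nondecreasing right-continuous `f : [0,∞) → [0,∞)` with `f 0 = 0` and
`f t > 0` for `t > 0`. -/
def IsGauge (f : ℝ≥0 → ℝ≥0) : Prop :=
  Monotone f ∧ (∀ t, ContinuousWithinAt f (Ici t) t) ∧ f 0 = 0 ∧ ∀ t, 0 < t → 0 < f t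

/-- the diameter of a set of reals, as a nonnegative real (only used for sets of finite
diameter; `Metric.ediam` is the diameter with values in `[0,∞]`) -/
noncomputable def diam (U : Set ℝ) : ℝ≥0 := (Metric.ediam U).toNNReal

/-- `H^f_δ(A) = inf { ∑_i f(diam U_i) : A ⊆ ⋃_i U_i, diam U_i ≤ δ }`, over sequences of sets
(finite covers are included because `f(diam ∅) = 0`) -/
noncomputable def Hdelta (f : ℝ≥0 → ℝ≥0) (δ : ℝ≥0) (A : Set ℝ) : ℝ≥0∞ :=
  ⨅ (U : ℕ → Set ℝ) (_ : A ⊆ ⋃ i, U i) (_ : ∀ i, Metric.ediam (U i) ≤ δ),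
    ∑' i, (f (diam (U i)) : ℝ≥0∞)

/-- `H^f(A) = lim_{δ → 0+} H^f_δ(A) = sup_{δ > 0} H^f_δ(A)`, for an arbitrary set `A` of reals -/
noncomputable def H (f : ℝ≥0 → ℝ≥0) (A : Set ℝ) : ℝ≥0∞ :=
  ⨆ (δ : ℝ≥0) (_ : 0 < δ), Hdelta f δ A

/-- the supremum in `H` is the limit for `δ → 0+` -/
theorem H_eq_limit (f : ℝ≥0 → ℝ≥0) (A : Set ℝ) :
    Filter.Tendsto (fun δ => Hdelta f δ A) (nhdsWithin 0 (Ioi 0)) (nhds (H f A)) :=
  Pool.Agent.K1H75.Gauge.tendsto_Hdelta f A

/-- `f(t)/t → ∞` as `t → 0+` -/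
def RatioTendsToInfinity (f : ℝ≥0 → ℝ≥0) : Prop :=
  ∀ C : ℝ≥0, ∃ δ : ℝ≥0, 0 < δ ∧ ∀ t, 0 < t → t < δ → C * t < f t

/-- `(∗)` for the gauge `f`: every set of positive `H^f`-measure has a subset of finite positive
`H^f`-measure -/
def Star (f : ℝ≥0 → ℝ≥0) : Prop :=
  ∀ A : Set ℝ, 0 < H f A → ∃ A₀ ⊆ A, 0 < H f A₀ ∧ H f A₀ < ⊤

theorem isGauge_iff (f : ℝ≥0 → ℝ≥0) : IsGauge f ↔ Pool.Agent.K1H75.Gauge.IsGauge f :=
  ⟨fun h => ⟨h.1, h.2.1, h.2.2.1, h.2.2.2⟩, fun h => ⟨h.mono, h.right_cont, h.zero, h.pos⟩⟩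

theorem sqrt_gauge : IsGauge NNReal.sqrt ∧ RatioTendsToInfinity NNReal.sqrt := by
  refine ⟨⟨fun a b h => NNReal.sqrt_le_sqrt.2 h, fun t => NNReal.continuous_sqrt.continuousWithinAt,
    NNReal.sqrt_zero, fun t ht => NNReal.sqrt_pos.2 ht⟩, fun C => ?_⟩
  refine ⟨((C + 1) ^ 2)⁻¹, by positivity, fun t ht htC => ?_⟩
  have hs : 0 < NNReal.sqrt t := NNReal.sqrt_pos.2 ht
  have h1 : NNReal.sqrt t < (C + 1)⁻¹ := by
    by_contra hcon
    have h := NNReal.le_sqrt_iff_sq_le.1 (not_lt.1 hcon)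
    rw [inv_pow] at h
    exact absurd htC (not_lt.2 h)
  have h2 : (C + 1) * NNReal.sqrt t < 1 := by
    calc (C + 1) * NNReal.sqrt t < (C + 1) * (C + 1)⁻¹ := by gcongr
      _ = 1 := mul_inv_cancel₀ (by positivity)
  have h3 : C * t ≤ (C + 1) * NNReal.sqrt t * NNReal.sqrt t := by
    rw [mul_assoc, NNReal.mul_self_sqrt]
    gcongr
    exact le_self_add
  calc C * t ≤ (C + 1) * NNReal.sqrt t * NNReal.sqrt t := h3
    _ < 1 * NNReal.sqrt t := by gcongr
    _ = NNReal.sqrt t := one_mul _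

/-- **`(∗)` fails in ZFC, and `(∗)_f` holds exactly for the gauges with `f(t)/t ↛ ∞`.**

First part (the negated form of Q1): there are a gauge function `f` and a set `A` of reals with
`H^f(A) > 0` all of whose subsets have `H^f`-measure `0` or `∞`. Second part: for every gauge
function `f`, every set of positive `H^f`-measure has a subset of finite positive `H^f`-measure if
and only if `f(t)/t` does not tend to `∞` as `t → 0`. -/
theorem result :
    (∃ f : ℝ≥0 → ℝ≥0, IsGauge f ∧ ∃ A : Set ℝ, 0 < H f A ∧ ∀ A₀ ⊆ A, H f A₀ = 0 ∨ H f A₀ = ⊤) ∧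
    (∀ f : ℝ≥0 → ℝ≥0, IsGauge f → (Star f ↔ ¬ RatioTendsToInfinity f)) := by
  have bad : ∀ f : ℝ≥0 → ℝ≥0, IsGauge f → RatioTendsToInfinity f →
      ∃ A : Set ℝ, 0 < H f A ∧ ∀ A₀ ⊆ A, H f A₀ = 0 ∨ H f A₀ = ⊤ := by
    intro f hf hr
    have hf' := (isGauge_iff f).1 hf
    obtain ⟨A, hA1, hA2⟩ := Pool.Agent.K1H75.Gauge.exists_bad hf' hr
    refine ⟨A, ?_, Pool.Agent.K1H75.Gauge.dichotomy hf'.zero hA1⟩
    have : H f A = ⊤ := hA2
    rw [this]
    exact ENNReal.zero_lt_top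
  refine ⟨⟨_, sqrt_gauge.1, bad _ sqrt_gauge.1 sqrt_gauge.2⟩, fun f hf => ⟨?_, ?_⟩⟩
  · intro hs hr
    obtain ⟨A, hA, hdich⟩ := bad f hf hr
    obtain ⟨A₀, hA₀, h1, h2⟩ := hs A hA
    rcases hdich A₀ hA₀ with h | h
    · exact h1.ne' h
    · exact h2.ne h
  · intro hr A hA
    unfold RatioTendsToInfinity at hr
    push Not at hr
    obtain ⟨C, hC⟩ := hr
    exact Pool.Agent.K1H75.Gauge.exists_finite_part ((isGauge_iff f).1 hf) hC A hA

end Pool.Agent.Results.MP_b87f19_lc.EveryLargeGauge
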